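import Pool.Agent.Helper25.EC.PartIV
import Pool.Agent.Helper25.ETCFrozen

/-!
# EC: final assembly of S17141 from the step theorem (helper25)
-/

set_option autoImplicit false

open scoped Pointwise

namespace Pool.Agent.Helper25.EC

open Pool.Agent.Helper25.ETC

section

variable {F K : Type} [Field F] [Field K] [Algebra F K]

theorem frame_of_pcl {p : ℕ} (hp : p.Prime) (PC : PCl p F K) {ζ : F} (hζ : IsPrimitiveRoot ζ p)
    (S : Finset (K ≃ₐ[F] K))
    (hS : Dense ((Subgroup.closure (S : Set (K ≃ₐ[F] K)) : Set (K ≃ₐ[F] K)))) :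
    Frame p K (K ≃ₐ[F] K) := by
  have hgal := PC.gal
  refine ⟨hp, ?_, ?_, ?_, ?_, PC.root, ?_⟩
  · intro g hg
    exact AlgEquiv.ext hg
  · intro x
    have hfd : FiniteDimensional F (IntermediateField.adjoin F {x}) :=
      IntermediateField.adjoin.finiteDimensional (Algebra.IsIntegral.isIntegral x)
    refine Subgroup.isOpen_mono ?_ (IntermediateField.fixingSubgroup_isOpen
      (IntermediateField.adjoin F {x}))
    intro g hg
    rw [MulAction.mem_stabilizer_iff]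
    exact hg ⟨x, IntermediateField.mem_adjoin_simple_self F x⟩
  · intro N _ hN
    have hfin : Finite ((K ≃ₐ[F] K) ⧸ N) := Subgroup.quotient_finite_of_isOpen N hN
    have : Fact p.Prime := ⟨hp⟩
    have hPG : IsPGroup p ((K ≃ₐ[F] K) ⧸ N) := by
      intro q
      obtain ⟨g, rfl⟩ := QuotientGroup.mk'_surjective N q
      obtain ⟨E, hE, hEN⟩ := (krullTopology_mem_nhds_one_iff F K _).mp
        (hN.mem_nhds (Subgroup.one_mem N))
      have hsep : Algebra.IsSeparable F E := inferInstance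
      obtain ⟨θ, hθ⟩ := Field.exists_primitive_element F E
      obtain ⟨k, hk⟩ := PC.tors g (θ : K)
      refine ⟨k, ?_⟩
      rw [← map_pow, ← MonoidHom.mem_ker, QuotientGroup.ker_mk']
      apply hEN
      rintro ⟨y, hy⟩
      have h1 : (⟨y, hy⟩ : E) ∈ IntermediateField.adjoin F {θ} := by rw [hθ]; trivial
      let T : IntermediateField F E :=
        (IntermediateField.fixedField (Subgroup.zpowers (g ^ (p ^ k)))).comap E.val
      have h2 : IntermediateField.adjoin F {θ} ≤ T := by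
        rw [IntermediateField.adjoin_simple_le_iff]
        change (θ : K) ∈ IntermediateField.fixedField (Subgroup.zpowers (g ^ (p ^ k)))
        rw [IntermediateField.mem_fixedField_iff]
        intro f hf
        obtain ⟨m, rfl⟩ := Subgroup.mem_zpowers_iff.mp hf
        have h5 : (g ^ (p ^ k)) ∈ MulAction.stabilizer (K ≃ₐ[F] K) (θ : K) := hk
        exact (MulAction.stabilizer (K ≃ₐ[F] K) (θ : K)).zpow_mem h5 m
      have h3 : (y : K) ∈ IntermediateField.fixedField (Subgroup.zpowers (g ^ (p ^ k))) := h2 h1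
      rw [IntermediateField.mem_fixedField_iff] at h3
      exact h3 _ (Subgroup.mem_zpowers _)
    exact IsPGroup.iff_card.mp hPG
  · exact ⟨algebraMap F K ζ, hζ.map_of_injective (algebraMap F K).injective,
      fun g => AlgEquiv.commutes g ζ⟩
  · -- finitely many homomorphisms
    have : Fact p.Prime := ⟨hp⟩
    have : Finite (Multiplicative (ZMod p)) := inferInstanceAs (Finite (ZMod p))
    let f : {χ : (K ≃ₐ[F] K) →* Multiplicative (ZMod p) // IsOpen (χ.ker : Set (K ≃ₐ[F] K))} →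
        (S → Multiplicative (ZMod p)) := fun χ s => χ.1 (s : K ≃ₐ[F] K)
    refine Finite.of_injective f ?_
    intro χ χ' h
    apply Subtype.ext
    have hop : IsOpen ((χ.1.ker ⊓ χ'.1.ker : Subgroup (K ≃ₐ[F] K)) : Set (K ≃ₐ[F] K)) :=
      χ.2.inter χ'.2
    have h1 : ∀ g ∈ Subgroup.closure (S : Set (K ≃ₐ[F] K)), χ.1 g = χ'.1 g := by
      intro g hg
      have h2 : Subgroup.closure (S : Set (K ≃ₐ[F] K)) ≤ MonoidHom.eqLocus χ.1 χ'.1 := by
        rw [Subgroup.closure_le]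
        intro s hs
        exact congrFun h ⟨s, hs⟩
      exact h2 hg
    ext g
    congr 1
    -- approximate g
    have hU : IsOpen {u : K ≃ₐ[F] K | g⁻¹ * u ∈ χ.1.ker ⊓ χ'.1.ker} :=
      hop.preimage (continuous_const.mul continuous_id)
    obtain ⟨u, hu, hu'⟩ := hS.exists_mem_open hU ⟨g, by
      change g⁻¹ * g ∈ χ.1.ker ⊓ χ'.1.ker
      rw [inv_mul_cancel]; exact Subgroup.one_mem _⟩
    have h3 : χ.1 (g⁻¹ * u) = 1 := hu'.1
    have h4 : χ'.1 (g⁻¹ * u) = 1 := hu'.2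
    rw [map_mul, map_inv, inv_mul_eq_one] at h3 h4
    rw [h3, h4, h1 u hu]

end

theorem FreeProd.reindex {p : ℕ} {G : Type} [Group G] [TopologicalSpace G]
    [IsTopologicalGroup G] {ι κ : Type} {H : ι → Subgroup G} (h : FreeProd p H) (e : κ ≃ ι) :
    FreeProd p (fun k => H (e k)) := by
  intro P _ _ hP φ hφ
  have hle : ∀ i, H i ≤ H (e (e.symm i)) := fun i => le_of_eq (congrArg H (e.apply_symm_apply i).symm)
  let φ' : (i : ι) → (H i →* P) := fun i => (φ (e.symm i)).comp (Subgroup.inclusion (hle i))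
  have hφ'_apply : ∀ i (x : H i), φ' i x = φ (e.symm i) ⟨(x : G), hle i x.2⟩ := fun i x => rfl
  have hcongr : ∀ k k' : κ, k' = k → ∀ (x : G) (hx : x ∈ H (e k')) (hx' : x ∈ H (e k)),
      φ k' ⟨x, hx⟩ = φ k ⟨x, hx'⟩ := by
    rintro k _ rfl x hx hx'
    rfl
  obtain ⟨ψ, ⟨hψo, hψ⟩, hψu⟩ := h P hP φ' (by
    intro i
    obtain ⟨U, hU, h1, hUx⟩ := (isOpen_ker_iff _ _).mp (hφ (e.symm i))
    rw [isOpen_ker_iff]
    exact ⟨U, hU, h1, fun x hx => hUx ⟨(x : G), hle i x.2⟩ hx⟩)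
  refine ⟨ψ, ⟨hψo, ?_⟩, ?_⟩
  · intro k x
    rw [hψ (e k) x, hφ'_apply]
    exact hcongr k (e.symm (e k)) (e.symm_apply_apply k) x _ x.2
  · rintro ψ' ⟨hψ'o, hψ'⟩
    apply hψu
    refine ⟨hψ'o, fun i x => ?_⟩
    rw [hφ'_apply]
    exact hψ' (e.symm i) ⟨(x : G), hle i x.2⟩

/-- **S17141 from the step theorem.** -/
theorem main_of_step
    (step : ∀ (p : ℕ) (K G : Type) [Field K] [Group G] [TopologicalSpace G] [IsTopologicalGroup G]
      [CompactSpace G] [TotallyDisconnectedSpace G] [MulSemiringAction G K],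
      Frame p K G → Step p K G) :
  ∀ (p : ℕ) [Fact p.Prime] (F : Type) [Field F],
    (∃ ζ : F, IsPrimitiveRoot ζ p) →
    ∀ K : IntermediateField F (AlgebraicClosure F),
      K = sSup {L : IntermediateField F (AlgebraicClosure F) |
        FiniteDimensional F L ∧ IsGalois F L ∧ ∃ k : ℕ, Module.finrank F L = p ^ k} →
      (∃ S : Finset (↥K ≃ₐ[F] ↥K),
        Dense ((Subgroup.closure (S : Set (↥K ≃ₐ[F] ↥K)) : Set (↥K ≃ₐ[F] ↥K)))) →
      ∃ (n : ℕ) (H : Fin n → Subgroup (↥K ≃ₐ[F] ↥K)),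
        (∀ i, IsClosed (H i : Set (↥K ≃ₐ[F] ↥K))) ∧
        (∀ (P : Type) [Group P] [Finite P], (∃ k : ℕ, Nat.card P = p ^ k) →
          ∀ φ : (i : Fin n) → (H i →* P), (∀ i, IsOpen ((φ i).ker : Set (H i))) →
            ∃! ψ : (↥K ≃ₐ[F] ↥K) →* P,
              IsOpen (ψ.ker : Set (↥K ≃ₐ[F] ↥K)) ∧
              ∀ i, ∀ x : H i, ψ (x : ↥K ≃ₐ[F] ↥K) = φ i x) ∧
        (∀ i,
          Nonempty (H i ≃ₜ* Multiplicative (PadicInt p)) ∨
          (∃ (Γ : Type) (_ : LinearOrderedCommGroupWithZero Γ) (w : Valuation (↥K) Γ),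
            (∀ σ : ↥K ≃ₐ[F] ↥K, σ ∈ H i ↔ ∀ x : ↥K, (w (σ x) ≤ 1 ↔ w x ≤ 1)) ∧
            ∃ σ ∈ H i, σ ≠ 1 ∧ ∀ x : ↥K, w x ≤ 1 → w (σ x - x) < 1) ∨
          (p = 2 ∧ Nat.card (H i) = 2)) := by
  intro p hpf F _ hζ K hK hS
  obtain ⟨ζ, hζ⟩ := hζ
  obtain ⟨S, hS⟩ := hS
  have hp : p.Prime := Fact.out
  have PC : PCl p F K := pcl_of_eq hp hζ hK
  have hgal := PC.gal
  have Fr := frame_of_pcl hp PC hζ S hS
  obtain ⟨ι, hι, H, hHc, hHF, hH⟩ := concl_of_step (fun K G => step p K G) _ K (K ≃ₐ[F] K) Fr le_rfl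
  obtain ⟨n, ⟨e⟩⟩ := Finite.exists_equiv_fin ι
  refine ⟨n, fun i => H (e.symm i), fun i => hHc _, ?_, ?_⟩
  · exact fun P _ _ hP φ hφ => hHF.reindex e.symm P hP φ hφ
  · intro i
    change Nonempty (H (e.symm i) ≃ₜ* Multiplicative (PadicInt p)) ∨
      (∃ (Γ : Type) (_ : LinearOrderedCommGroupWithZero Γ) (w : Valuation (↥K) Γ),
            (∀ σ : ↥K ≃ₐ[F] ↥K, σ ∈ H (e.symm i) ↔ ∀ x : ↥K, (w (σ x) ≤ 1 ↔ w x ≤ 1)) ∧
            ∃ σ ∈ H (e.symm i), σ ≠ 1 ∧ ∀ x : ↥K, w x ≤ 1 → w (σ x - x) < 1) ∨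
          (p = 2 ∧ Nat.card (H (e.symm i)) = 2)
    rcases hH (e.symm i) with ⟨_, h⟩ | ⟨A, hA, g, hg, hi⟩ | h
    · exact Or.inl h
    · right; left
      refine ⟨A.ValueGroup, inferInstance, A.valuation, fun σ => ?_, g, ?_, hg, fun x hx => ?_⟩
      · rw [hA, MulAction.mem_stabilizer_iff, mem_stab_iff]
        exact forall_congr' fun x => by
          rw [A.valuation_le_one_iff, A.valuation_le_one_iff]; rfl
      · rw [hA, MulAction.mem_stabilizer_iff]
        exact hi.1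
      · exact (hi.2 x ((A.valuation_le_one_iff x).mp hx))
    · exact Or.inr (Or.inr h)

end Pool.Agent.Helper25.EC
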