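import Pool.Agent.Helper25.EC.Frame

/-!
# EC Part IV: topological lemmas on profinite groups acting on fields (helper25)
-/

set_option autoImplicit false

open scoped Pointwise

namespace Pool.Agent.Helper25.EC

section top

variable {G : Type} [Group G] [TopologicalSpace G] [IsTopologicalGroup G]

/-- the kernel of a homomorphism from a subgroup is open iff it contains a neighbourhood of 1. -/
theorem isOpen_ker_iff {P : Type} [Group P] (S : Subgroup G) (φ : S →* P) :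
    IsOpen (φ.ker : Set S) ↔ ∃ U : Set G, IsOpen U ∧ (1 : G) ∈ U ∧ ∀ x : S, (x : G) ∈ U → φ x = 1 := by
  constructor
  · intro h
    obtain ⟨U, hU, hUS⟩ := isOpen_induced_iff.mp h
    refine ⟨U, hU, ?_, ?_⟩
    · have : (1 : S) ∈ Subtype.val ⁻¹' U := by
        rw [hUS]; exact φ.ker.one_mem
      exact this
    · intro x hx
      have : x ∈ (φ.ker : Set S) := by
        rw [← hUS]; exact hx
      exact this
  · rintro ⟨U, hU, h1, h⟩
    apply Subgroup.isOpen_of_mem_nhds (g := (1 : S))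
    refine Filter.mem_of_superset ((hU.preimage continuous_subtype_val).mem_nhds (x := (1 : S)) h1) ?_
    intro x hx
    exact h x hx

theorem isOpen_ker_iff' {P : Type} [Group P] (φ : G →* P) :
    IsOpen (φ.ker : Set G) ↔ ∃ U : Set G, IsOpen U ∧ (1 : G) ∈ U ∧ ∀ x : G, x ∈ U → φ x = 1 := by
  constructor
  · intro h
    exact ⟨φ.ker, h, φ.ker.one_mem, fun x hx => hx⟩
  · rintro ⟨U, hU, h1, h⟩
    apply Subgroup.isOpen_of_mem_nhds (g := (1 : G))
    exact Filter.mem_of_superset (hU.mem_nhds h1) (fun x hx => h x hx)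

/-- the free product of free products. -/
theorem FreeProd.sigma {p : ℕ} {ι : Type} {H : ι → Subgroup G} (h : FreeProd p H)
    {κ : ι → Type} (L : (i : ι) → κ i → Subgroup (H i)) (hL : ∀ i, FreeProd p (L i)) :
    FreeProd p (fun x : (Σ i, κ i) => (L x.1 x.2).map (H x.1).subtype) := by
  intro P _ _ hP φ hφ
  -- the pulled back homomorphisms
  have hmem : ∀ i j (x : L i j), ((x : H i) : G) ∈ (L i j).map (H i).subtype :=
    fun i j x => ⟨x, x.2, rfl⟩
  let φ' : (i : ι) → (j : κ i) → (L i j →* P) := fun i j =>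
    (φ ⟨i, j⟩).comp
      { toFun := fun x => ⟨((x : H i) : G), hmem i j x⟩
        map_one' := rfl
        map_mul' := fun x y => rfl }
  have hφ'_apply : ∀ i j (x : L i j), φ' i j x = φ ⟨i, j⟩ ⟨((x : H i) : G), hmem i j x⟩ :=
    fun i j x => rfl
  have hφ' : ∀ i j, IsOpen ((φ' i j).ker : Set (L i j)) := by
    intro i j
    obtain ⟨U, hU, h1, hUx⟩ := (isOpen_ker_iff _ _).mp (hφ ⟨i, j⟩)
    rw [isOpen_ker_iff (G := H i)]
    exact ⟨Subtype.val ⁻¹' U, hU.preimage continuous_subtype_val, h1, fun x hx => hUx _ hx⟩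
  -- the homomorphisms on the `H i`
  have hex : ∀ i, ∃ ψ : H i →* P, (IsOpen (ψ.ker : Set (H i)) ∧
      ∀ j, ∀ x : L i j, ψ (x : H i) = φ' i j x) ∧
      ∀ ψ' : H i →* P, (IsOpen (ψ'.ker : Set (H i)) ∧
      ∀ j, ∀ x : L i j, ψ' (x : H i) = φ' i j x) → ψ' = ψ :=
    fun i => hL i P hP (φ' i) (hφ' i)
  choose ψ hψ hψu using hex
  obtain ⟨θ, ⟨hθo, hθ⟩, hθu⟩ := h P hP ψ (fun i => (hψ i).1)
  refine ⟨θ, ⟨hθo, ?_⟩, ?_⟩
  · rintro ⟨i, j⟩ ⟨_, ⟨x, hx, rfl⟩⟩
    have h1 := hθ i x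
    have h2 := (hψ i).2 j ⟨x, hx⟩
    rw [hφ'_apply] at h2
    exact h1.trans h2
  · rintro θ' ⟨hθ'o, hθ'⟩
    apply hθu
    refine ⟨hθ'o, fun i => ?_⟩
    have h3 : θ'.comp (H i).subtype = ψ i := by
      apply hψu
      constructor
      · obtain ⟨U, hU, h1, hUx⟩ := (isOpen_ker_iff' _).mp hθ'o
        rw [isOpen_ker_iff]
        exact ⟨U, hU, h1, fun x hx => hUx _ hx⟩
      · intro j x
        rw [hφ'_apply]
        exact hθ' ⟨i, j⟩ ⟨((x : H i) : G), hmem i j x⟩
    intro x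
    exact DFunLike.congr_fun h3 x

end top

end Pool.Agent.Helper25.EC
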