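import Mathlib

/-!
# Elementary Type Conjecture (MP_600e55_nt): the frame for the Galois part (helper25)

`G` is a profinite pro-`p` group which acts faithfully and continuously on the discrete field `K`;
`K` contains a primitive `p`-th root of unity and every element of `K` is a `p`-th power.
-/

set_option autoImplicit false

open scoped Pointwise

namespace Pool.Agent.Helper25.EC

/-- The standing assumptions of the Galois part. -/
structure Frame (p : ℕ) (K G : Type) [Field K] [Group G] [TopologicalSpace G]
    [MulSemiringAction G K] : Prop where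
  prime : p.Prime
  faithful : ∀ g : G, (∀ x : K, g • x = x) → g = 1
  stab : ∀ x : K, IsOpen (MulAction.stabilizer G x : Set G)
  index : ∀ N : Subgroup G, N.Normal → IsOpen (N : Set G) → ∃ k : ℕ, N.index = p ^ k
  zeta : ∃ ζ : K, IsPrimitiveRoot ζ p ∧ ∀ g : G, g • ζ = ζ
  closed : ∀ x : K, ∃ y, y ^ p = x
  fin : Finite {χ : G →* Multiplicative (ZMod p) // IsOpen (χ.ker : Set G)}

/-- `G` is the free pro-`p` product of the subgroups `H i` (universal property as in `S17141`). -/
def FreeProd (p : ℕ) {G : Type} [Group G] [TopologicalSpace G] {ι : Type}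
    (H : ι → Subgroup G) : Prop :=
  ∀ (P : Type) [Group P] [Finite P], (∃ k : ℕ, Nat.card P = p ^ k) →
    ∀ φ : (i : ι) → (H i →* P), (∀ i, IsOpen ((φ i).ker : Set (H i))) →
      ∃! ψ : G →* P, IsOpen (ψ.ker : Set G) ∧ ∀ i, ∀ x : H i, ψ (x : G) = φ i x

/-- The inertia group of a valuation ring (in the whole group; it lies in the stabilizer). -/
def Inert {K G : Type} [Field K] [Group G] [MulSemiringAction G K]
    (A : ValuationSubring K) (g : G) : Prop :=
  g • A = A ∧ ∀ x ∈ A, g • x - x ∈ A.nonunits

/-- The three types of factors. -/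
def Good (p : ℕ) (K : Type) {G : Type} [Field K] [Group G] [TopologicalSpace G]
    [MulSemiringAction G K] (H : Subgroup G) : Prop :=
  (∃ _ : Fact p.Prime, Nonempty (H ≃ₜ* Multiplicative (PadicInt p))) ∨
  (∃ A : ValuationSubring K, H = MulAction.stabilizer G A ∧ ∃ g : G, g ≠ 1 ∧ Inert A g) ∨
  (p = 2 ∧ Nat.card H = 2)

/-- The decomposition group of a nontrivial tame valuation ring. -/
def Tame (p : ℕ) (K : Type) {G : Type} [Field K] [Group G]
    [MulSemiringAction G K] (H : Subgroup G) : Prop :=
  ∃ A : ValuationSubring K, A ≠ ⊤ ∧ ((p : K))⁻¹ ∈ A ∧ H = MulAction.stabilizer G A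

/-- The result of Part III for `(K, G)`. -/
def Step (p : ℕ) (K G : Type) [Field K] [Group G] [TopologicalSpace G]
    [MulSemiringAction G K] : Prop :=
  ∃ (ι : Type) (_ : Finite ι) (H : ι → Subgroup G),
    (∀ i, IsClosed (H i : Set G)) ∧ FreeProd p H ∧ ∀ i, Good p K (H i) ∨ Tame p K (H i)

/-- The final result for `(K, G)`. -/
def Concl (p : ℕ) (K G : Type) [Field K] [Group G] [TopologicalSpace G]
    [MulSemiringAction G K] : Prop :=
  ∃ (ι : Type) (_ : Finite ι) (H : ι → Subgroup G),
    (∀ i, IsClosed (H i : Set G)) ∧ FreeProd p H ∧ ∀ i, Good p K (H i)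

end Pool.Agent.Helper25.EC
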