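import Pool.Agent.Helper25.EC.Rec

/-!
# EC Part IV: the recursion, main theorem (helper25)
-/

set_option autoImplicit false

open scoped Pointwise

namespace Pool.Agent.Helper25.EC

section

variable {p : ℕ} {K G : Type} [Field K] [Group G] [TopologicalSpace G]

/-- lifting of factors from the residue field of a stable valuation ring. -/
theorem good_lift [MulSemiringAction G K] (A : ValuationSubring K) (hA : ∀ g : G, g • A = A)
    {H : Subgroup G} (h : @Good p (IsLocalRing.ResidueField A) G _ _ _ (resAct A hA) H) :
    Good p K H := by
  let := resAct A hA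
  rcases h with h | ⟨D, hD, g, hg, hi⟩ | h
  · exact Or.inl h
  · right; left
    refine ⟨compo A D, ?_, g, hg, (compo_inert A hA D g).mpr hi⟩
    rw [hD]
    ext g'
    rw [MulAction.mem_stabilizer_iff, MulAction.mem_stabilizer_iff]
    exact (compo_stab A hA D g').symm
  · exact Or.inr (Or.inr h)

theorem concl_lift [MulSemiringAction G K] (A : ValuationSubring K) (hA : ∀ g : G, g • A = A)
    (h : @Concl p (IsLocalRing.ResidueField A) G _ _ _ (resAct A hA)) :
    Concl p K G := by
  let := resAct A hA
  obtain ⟨ι, hι, H, h1, h2, h3⟩ := h
  exact ⟨ι, hι, H, h1, h2, fun i => good_lift A hA (h3 i)⟩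

variable [IsTopologicalGroup G] [CompactSpace G] [TotallyDisconnectedSpace G]
  [MulSemiringAction G K]

/-- transport of a factor of a subgroup. -/
theorem good_map (Fr : Frame p K G) {B : ValuationSubring K} {H : Subgroup G}
    (hH : H = MulAction.stabilizer G B) {L : Subgroup H}
    (h : (∃ _ : Fact p.Prime, Nonempty (L ≃ₜ* Multiplicative (PadicInt p))) ∨
      (∃ D : ValuationSubring K, D ≤ B ∧ L = MulAction.stabilizer H D ∧
        ∃ g : H, g ≠ 1 ∧ Inert D g) ∨ (p = 2 ∧ Nat.card L = 2)) :
    Good p K (L.map H.subtype) := by
  rcases h with ⟨hp, ⟨e⟩⟩ | ⟨D, hDB, hL, g, hg, hi⟩ | ⟨h2, hc⟩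
  · left
    exact ⟨hp, ⟨(mapEquiv H L).symm.trans e⟩⟩
  · right; left
    refine ⟨D, ?_, (g : G), fun h => hg (Subtype.ext h), hi⟩
    ext x
    rw [MulAction.mem_stabilizer_iff]
    constructor
    · rintro ⟨y, hy, rfl⟩
      have hy' : y ∈ L := hy
      rw [hL] at hy'
      exact hy'
    · intro hx
      have h1 : x ∈ H := by
        rw [hH]
        exact stab_le_of_le hDB (fin_order Fr x) hx
      refine ⟨⟨x, h1⟩, ?_, rfl⟩
      rw [hL]
      exact hx
  · right; right
    refine ⟨h2, ?_⟩
    rw [← Nat.card_congr (mapEquiv H L).toEquiv]
    exact hc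

end

theorem concl_of_step {p : ℕ}
    (step : ∀ (K G : Type) [Field K] [Group G] [TopologicalSpace G] [IsTopologicalGroup G]
      [CompactSpace G] [TotallyDisconnectedSpace G] [MulSemiringAction G K],
      Frame p K G → Step p K G) :
    ∀ (n : ℕ) (K G : Type) [Field K] [Group G] [TopologicalSpace G] [IsTopologicalGroup G]
      [CompactSpace G] [TotallyDisconnectedSpace G] [MulSemiringAction G K],
      Frame p K G → Nat.card (CHom p G) ≤ n → Concl p K G := by
  intro n
  induction n with
  | zero =>
    intro K G _ _ _ _ _ _ _ Fr hn
    exfalso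
    have h1 : Finite (CHom p G) := Fr.fin
    have h2 : Nonempty (CHom p G) := ⟨⟨1, by rw [MonoidHom.ker_one]; exact isOpen_univ⟩⟩
    have h3 : 0 < Nat.card (CHom p G) := Nat.card_pos
    omega
  | succ n ih =>
    intro K G _ _ _ _ _ _ _ Fr hn
    obtain ⟨A, hA, hpA, hmin⟩ := exists_min_stable (K := K) (G := G) p
    by_cases hin : ∀ g : G, Inert A g → g = 1
    swap
    · -- nontrivial inertia
      push Not at hin
      obtain ⟨g, hg, hg1⟩ := hin
      refine ⟨Unit, inferInstance, fun _ => ⊤, fun _ => isClosed_univ, freeProd_top p, fun _ => ?_⟩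
      right; left
      refine ⟨A, ?_, g, hg1, hg⟩
      ext x
      simp only [Subgroup.mem_top, MulAction.mem_stabilizer_iff, true_iff]
      exact hA x
    · -- trivial inertia: pass to the residue field
      apply concl_lift A hA
      let := resAct A hA
      have FrA : Frame p (IsLocalRing.ResidueField A) G := frame_residue Fr A hA hpA hin
      -- no stable tame valuation ring on the residue field
      have hmin' : ∀ B : ValuationSubring (IsLocalRing.ResidueField A), B ≠ ⊤ →
          ((p : IsLocalRing.ResidueField A))⁻¹ ∈ B → MulAction.stabilizer G B ≠ ⊤ := by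
        intro B hB hpB htop
        have h1 : ∀ g : G, g • compo A B = compo A B := by
          intro g
          rw [compo_stab A hA]
          have : g ∈ MulAction.stabilizer G B := by rw [htop]; trivial
          exact this
        have h2 : (p : K)⁻¹ ∈ compo A B := by
          refine ⟨hpA, ?_⟩
          obtain ⟨ζ, hζ, -⟩ := Fr.zeta
          have hpK : (p : K) ≠ 0 := by
            have : NeZero p := ⟨Fr.prime.ne_zero⟩
            exact hζ.neZero'.out
          have h3 : IsLocalRing.residue A ⟨(p : K)⁻¹, hpA⟩ = ((p : IsLocalRing.ResidueField A))⁻¹ := by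
            apply eq_inv_of_mul_eq_one_left
            rw [← map_natCast (IsLocalRing.residue A), ← map_mul, ← map_one (IsLocalRing.residue A)]
            congr 1
            apply Subtype.ext
            push_cast
            exact inv_mul_cancel₀ hpK
          rw [h3]; exact hpB
        have h4 := hmin (compo A B) (compo_le A B) h1 h2
        apply hB
        rw [eq_top_iff]
        intro y _
        obtain ⟨x, rfl⟩ := IsLocalRing.residue_surjective y
        have h5 : (x : K) ∈ compo A B := by rw [h4]; exact x.2
        exact h5.2
      obtain ⟨ι, hι, H, hHc, hHF, hH⟩ := step (IsLocalRing.ResidueField A) G FrA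
      have hfinA : Finite (CHom p G) := Fr.fin
      -- decomposition of every factor
      have key : ∀ i, ∃ (κ : Type) (_ : Finite κ) (L : κ → Subgroup (H i)),
          (∀ j, IsClosed (L j : Set (H i))) ∧ FreeProd p L ∧
          ∀ j, Good p (IsLocalRing.ResidueField A) ((L j).map (H i).subtype) := by
        intro i
        have hcpt : CompactSpace (H i) := isCompact_iff_compactSpace.mp (hHc i).isCompact
        have hgood : Good p (IsLocalRing.ResidueField A) (H i) →
            ∃ (κ : Type) (_ : Finite κ) (L : κ → Subgroup (H i)),
            (∀ j, IsClosed (L j : Set (H i))) ∧ FreeProd p L ∧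
            ∀ j, Good p (IsLocalRing.ResidueField A) ((L j).map (H i).subtype) := by
          intro hg
          refine ⟨Unit, inferInstance, fun _ => ⊤, fun _ => isClosed_univ, freeProd_top p,
            fun _ => ?_⟩
          have h1 : (⊤ : Subgroup (H i)).map (H i).subtype = H i := by
            rw [← MonoidHom.range_eq_map, Subgroup.range_subtype]
          rw [h1]; exact hg
        rcases hH i with hg | ⟨B, hB, hpB, hHB⟩
        · exact hgood hg
        · by_cases hinB : ∀ g : G, Inert B g → g = 1
          swap
          · push Not at hinB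
            obtain ⟨g, hg, hg1⟩ := hinB
            exact hgood (Or.inr (Or.inl ⟨B, hHB, g, hg1, hg⟩))
          · have hne : H i ≠ ⊤ := by
              rw [hHB]; exact hmin' B hB hpB
            obtain ⟨hfin, hlt⟩ := card_lt Fr.prime Fr.index hfinA hHF i (hHc i) hne
            have FrH : Frame p (IsLocalRing.ResidueField A) (H i) := frame_sub FrA (H i) hfin
            have hBst : ∀ g : H i, g • B = B := by
              intro g
              have h1 : (g : G) ∈ MulAction.stabilizer G B := by rw [← hHB]; exact g.2
              exact h1
            have hinB' : ∀ g : H i, Inert B g → g = 1 := by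
              intro g hg
              exact Subtype.ext (hinB g hg)
            have FrB := frame_residue FrH B hBst hpB hinB'
            let := resAct B hBst
            obtain ⟨κ, hκ, L, hLc, hLF, hL⟩ := ih (IsLocalRing.ResidueField B) (H i) FrB (by omega)
            refine ⟨κ, hκ, L, hLc, hLF, fun j => ?_⟩
            apply good_map FrA hHB
            rcases hL j with hz | ⟨D, hD, g, hg, hi⟩ | hc
            · exact Or.inl hz
            · right; left
              refine ⟨compo B D, compo_le B D, ?_, g, hg, (compo_inert B hBst D g).mpr hi⟩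
              rw [hD]
              ext x
              rw [MulAction.mem_stabilizer_iff, MulAction.mem_stabilizer_iff]
              exact (compo_stab B hBst D x).symm
            · exact Or.inr (Or.inr hc)
      choose κ hκ L hLc hLF hL using key
      refine ⟨Σ i, κ i, inferInstance, fun x => (L x.1 x.2).map (H x.1).subtype, ?_,
        FreeProd.sigma hHF L hLF, fun x => hL x.1 x.2⟩
      intro x
      exact isClosed_map (hHc x.1) (hLc x.1 x.2)

end Pool.Agent.Helper25.EC
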