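import Pool.Agent.Helper25.EC.Sub

/-!
# EC Part IV: the recursion (helper25)
-/

set_option autoImplicit false

open scoped Pointwise

namespace Pool.Agent.Helper25.EC

section

variable {p : ℕ} {K G : Type} [Field K] [Group G] [TopologicalSpace G] [IsTopologicalGroup G]
  [CompactSpace G] [TotallyDisconnectedSpace G] [MulSemiringAction G K]

theorem frame_sub (Fr : Frame p K G) (H : Subgroup G) (hfin : Finite (CHom p H)) :
    Frame p K H := by
  obtain ⟨ζ, hζ, hζG⟩ := Fr.zeta
  refine ⟨Fr.prime, ?_, ?_, ?_, ⟨ζ, hζ, fun g => hζG g⟩, Fr.closed, hfin⟩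
  · intro g hg
    exact Subtype.ext (Fr.faithful g hg)
  · intro x
    have h1 := (Fr.stab x).preimage (continuous_subtype_val (p := fun g : G => g ∈ H))
    exact h1
  · intro N _ hN
    exact index_sub Fr.prime Fr.index H N hN

omit [IsTopologicalGroup G] [TotallyDisconnectedSpace G] in
theorem fin_order (Fr : Frame p K G) [IsTopologicalGroup G] (g : G) (x : K) :
    ∃ n : ℕ, 0 < n ∧ g ^ n • x = x := by
  have h0 : Finite (G ⧸ MulAction.stabilizer G x) :=
    Subgroup.quotient_finite_of_isOpen _ (Fr.stab x)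
  have h1 : (MulAction.stabilizer G x).FiniteIndex :=
    Subgroup.finiteIndex_of_finite_quotient
  obtain ⟨n, hn, -, hn'⟩ := Subgroup.exists_pow_mem_of_index_ne_zero h1.index_ne_zero g
  exact ⟨n, hn, hn'⟩

omit [TopologicalSpace G] [IsTopologicalGroup G] [CompactSpace G] [TotallyDisconnectedSpace G] in
theorem exists_min_stable (p : ℕ) :
    ∃ A : ValuationSubring K, (∀ g : G, g • A = A) ∧ (p : K)⁻¹ ∈ A ∧
      ∀ B : ValuationSubring K, B ≤ A → (∀ g : G, g • B = B) → (p : K)⁻¹ ∈ B → B = A := by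
  classical
  let S : Set (ValuationSubring K)ᵒᵈ :=
    {A | (∀ g : G, g • (OrderDual.ofDual A) = OrderDual.ofDual A) ∧
      (p : K)⁻¹ ∈ OrderDual.ofDual A}
  have htop : OrderDual.toDual (⊤ : ValuationSubring K) ∈ S := by
    refine ⟨fun g => ?_, trivial⟩
    change g • (⊤ : ValuationSubring K) = ⊤
    rw [mem_stab_iff]
    intro x
    exact ⟨fun _ => trivial, fun _ => trivial⟩
  obtain ⟨A, -, hA⟩ := zorn_le_nonempty₀ S (by
    intro c hcS hc y hy
    let I : ValuationSubring K :=
      { carrier := {x | ∀ A ∈ c, x ∈ OrderDual.ofDual A}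
        mul_mem' := fun {a b} ha hb A hA => (OrderDual.ofDual A).mul_mem a b (ha A hA) (hb A hA)
        one_mem' := fun A hA => (OrderDual.ofDual A).one_mem
        add_mem' := fun {a b} ha hb A hA => (OrderDual.ofDual A).add_mem a b (ha A hA) (hb A hA)
        zero_mem' := fun A hA => (OrderDual.ofDual A).zero_mem
        neg_mem' := fun {a} ha A hA => (OrderDual.ofDual A).neg_mem a (ha A hA)
        mem_or_inv_mem' := by
          intro x
          by_contra hcon
          push Not at hcon
          obtain ⟨h1, h2⟩ := hcon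
          have h1' : ¬ ∀ A ∈ c, x ∈ OrderDual.ofDual A := h1
          have h2' : ¬ ∀ A ∈ c, x⁻¹ ∈ OrderDual.ofDual A := h2
          push Not at h1' h2'
          obtain ⟨A₁, hA₁, hx₁⟩ := h1'
          obtain ⟨A₂, hA₂, hx₂⟩ := h2'
          rcases hc.total hA₁ hA₂ with h | h
          · -- A₂ ⊆ A₁
            have h3 : x ∈ OrderDual.ofDual A₂ :=
              ((OrderDual.ofDual A₂).mem_or_inv_mem x).resolve_right hx₂
            exact hx₁ (h h3)
          · have h3 : x⁻¹ ∈ OrderDual.ofDual A₁ :=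
              ((OrderDual.ofDual A₁).mem_or_inv_mem x).resolve_left hx₁
            exact hx₂ (h h3) }
    have hI : ∀ x, x ∈ I ↔ ∀ A ∈ c, x ∈ OrderDual.ofDual A := fun x => Iff.rfl
    refine ⟨OrderDual.toDual I, ⟨fun g => ?_, ?_⟩, ?_⟩
    · change g • I = I
      rw [mem_stab_iff]
      intro x
      rw [hI, hI]
      exact forall₂_congr fun A hA => mem_stab_iff.mp ((hcS hA).1 g) x
    · change (p : K)⁻¹ ∈ I
      rw [hI]
      exact fun A hA => (hcS hA).2
    · intro A hA
      change I ≤ OrderDual.ofDual A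
      intro x hx
      exact (hI x).mp hx A hA) _ htop
  refine ⟨OrderDual.ofDual A, hA.prop.1, hA.prop.2, fun B hB h1 h2 => ?_⟩
  have h3 : A ≤ OrderDual.toDual B := hB
  have h4 := hA.le_of_ge (y := OrderDual.toDual B) ⟨h1, h2⟩ h3
  exact le_antisymm hB h4

omit [TopologicalSpace G] [IsTopologicalGroup G] [CompactSpace G] [TotallyDisconnectedSpace G]
  [MulSemiringAction G K] in
theorem map_mem_left {H : Subgroup G} {L : Subgroup H} {y : G} (h : y ∈ L.map H.subtype) :
    y ∈ H := by
  obtain ⟨h, -, rfl⟩ := h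
  exact h.2

omit [TopologicalSpace G] [IsTopologicalGroup G] [CompactSpace G] [TotallyDisconnectedSpace G]
  [MulSemiringAction G K] in
theorem map_mem_right {H : Subgroup G} {L : Subgroup H} {y : G} (h : y ∈ L.map H.subtype) :
    (⟨y, map_mem_left h⟩ : H) ∈ L := by
  obtain ⟨h, hL, rfl⟩ := h
  exact hL

/-- a subgroup of a subgroup, as a topological group. -/
def mapEquiv (H : Subgroup G) (L : Subgroup H) : L ≃ₜ* (L.map H.subtype) where
  toFun x := ⟨((x : H) : G), ⟨x, x.2, rfl⟩⟩
  invFun y := ⟨⟨(y : G), map_mem_left y.2⟩, map_mem_right y.2⟩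
  left_inv x := rfl
  right_inv y := rfl
  map_mul' x y := rfl
  continuous_toFun := (continuous_subtype_val.comp continuous_subtype_val).subtype_mk _
  continuous_invFun := (continuous_subtype_val.subtype_mk _).subtype_mk _

omit [IsTopologicalGroup G] [CompactSpace G] [TotallyDisconnectedSpace G] in
theorem isClosed_map {H : Subgroup G} (hH : IsClosed (H : Set G)) {L : Subgroup H}
    (hL : IsClosed (L : Set H)) : IsClosed ((L.map H.subtype : Subgroup G) : Set G) := by
  have h1 := hH.isClosedEmbedding_subtypeVal.isClosedMap _ hL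
  exact h1

theorem isClosed_stab (Fr : Frame p K G) (A : ValuationSubring K) :
    IsClosed ((MulAction.stabilizer G A : Subgroup G) : Set G) := by
  have hop : ∀ (x : K) (Q : K → Prop), IsOpen {g : G | Q (g • x)} := by
    intro x Q
    rw [isOpen_iff_mem_nhds]
    intro g hg
    have h1 : IsOpen {u : G | g⁻¹ * u ∈ MulAction.stabilizer G x} :=
      (Fr.stab x).preimage (continuous_const.mul continuous_id)
    refine Filter.mem_of_superset (h1.mem_nhds (by
      change g⁻¹ * g ∈ MulAction.stabilizer G x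
      rw [inv_mul_cancel]; exact Subgroup.one_mem _)) ?_
    intro u hu
    have h2 : (g⁻¹ * u) • x = x := hu
    have h3 : u • x = g • x := by
      rw [mul_smul, inv_smul_eq_iff] at h2
      exact h2
    change Q (u • x)
    rw [h3]; exact hg
  have h2 : ((MulAction.stabilizer G A : Subgroup G) : Set G) =
      ⋂ x : K, {g : G | g • x ∈ A ↔ x ∈ A} := by
    ext g
    rw [Set.mem_iInter]
    exact mem_stab_iff
  rw [h2]
  refine isClosed_iInter fun x => ?_
  rw [← isOpen_compl_iff]
  exact hop x (fun y => ¬ (y ∈ A ↔ x ∈ A))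

theorem freeProd_top (p : ℕ) : FreeProd p (fun _ : Unit => (⊤ : Subgroup G)) := by
  intro P _ _ _ φ hφ
  refine ⟨(φ ()).comp (Subgroup.topEquiv.symm.toMonoidHom), ⟨?_, ?_⟩, ?_⟩
  · obtain ⟨U, hU, h1, hUx⟩ := (isOpen_ker_iff _ _).mp (hφ ())
    rw [isOpen_ker_iff']
    exact ⟨U, hU, h1, fun x hx => hUx ⟨x, Subgroup.mem_top x⟩ hx⟩
  · intro i x
    rfl
  · rintro ψ ⟨-, hψ⟩
    ext x
    exact hψ () ⟨x, Subgroup.mem_top x⟩

end

end Pool.Agent.Helper25.EC
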