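import Pool.Agent.Helper25.EC.Val

/-!
# EC Part IV: the residue field of a stable tame valuation ring with trivial inertia (helper25)
-/

set_option autoImplicit false

open scoped Pointwise

namespace Pool.Agent.Helper25.EC

variable {p : ℕ} {K G : Type} [Field K] [Group G] [TopologicalSpace G] [MulSemiringAction G K]

theorem mem_of_pow_mem {A : ValuationSubring K} {x : K} {n : ℕ} (hn : n ≠ 0) (h : x ^ n ∈ A) :
    x ∈ A := by
  rw [← ValuationSubring.valuation_le_one_iff] at h ⊢
  rw [map_pow] at h
  exact (pow_le_one_iff hn).mp h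

theorem frame_residue [IsTopologicalGroup G] (Fr : Frame p K G) (A : ValuationSubring K)
    (hA : ∀ g : G, g • A = A) (hpA : ((p : K))⁻¹ ∈ A) (hin : ∀ g : G, Inert A g → g = 1) :
    @Frame p (IsLocalRing.ResidueField A) G _ _ _ (resAct A hA) := by
  letI := resAct A hA
  obtain ⟨ζ, hζ, hζG⟩ := Fr.zeta
  have hp := Fr.prime
  have hζA : ζ ∈ A := mem_of_pow_mem hp.ne_zero (by rw [hζ.pow_eq_one]; exact A.one_mem)
  have hpK : (p : K) ≠ 0 := by
    have : NeZero p := ⟨hp.ne_zero⟩
    exact hζ.neZero'.out
  refine ⟨hp, ?_, ?_, Fr.index, ?_, ?_, Fr.fin⟩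
  · intro g hg
    apply hin
    refine ⟨hA g, fun x hx => ?_⟩
    have h1 := hg (IsLocalRing.residue A ⟨x, hx⟩)
    rw [resAct_smul A hA, ← sub_eq_zero, ← map_sub] at h1
    have h2 : g • x - x ∈ A := A.toSubring.sub_mem (smul_mem_of_stab (hA g) hx) hx
    rw [mem_nonunits_iff_residue A h2]
    exact h1
  · intro y
    obtain ⟨x, rfl⟩ := IsLocalRing.residue_surjective y
    refine Subgroup.isOpen_mono ?_ (Fr.stab (x : K))
    intro g hg
    rw [MulAction.mem_stabilizer_iff] at hg ⊢
    rw [resAct_smul A hA]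
    congr 1
    exact Subtype.ext hg
  · refine ⟨IsLocalRing.residue A ⟨ζ, hζA⟩, ?_, ?_⟩
    · have : Fact p.Prime := ⟨hp⟩
      have h1 : IsLocalRing.residue A ⟨ζ, hζA⟩ ^ p = 1 := by
        rw [← map_pow, ← map_one (IsLocalRing.residue A)]
        congr 1
        exact Subtype.ext hζ.pow_eq_one
      have h2 : IsLocalRing.residue A ⟨ζ, hζA⟩ ≠ 1 := by
        intro h
        have h3 : ∑ i ∈ Finset.range p, ζ ^ i = 0 := hζ.geom_sum_eq_zero hp.one_lt
        have h4 : ∑ i ∈ Finset.range p, (IsLocalRing.residue A ⟨ζ, hζA⟩) ^ i = 0 := by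
          have h5 : ∑ i ∈ Finset.range p, (⟨ζ, hζA⟩ : A) ^ i = 0 := by
            apply Subtype.ext
            rw [← ValuationSubring.coe_subtype] 
            rw [map_sum]
            simpa using h3
          rw [← map_zero (IsLocalRing.residue A), ← h5, map_sum]
          exact Finset.sum_congr rfl fun i _ => (map_pow _ _ _).symm
        rw [h] at h4
        simp only [one_pow, Finset.sum_const, Finset.card_range, nsmul_eq_mul, mul_one] at h4
        have h6 : (IsLocalRing.residue A ⟨(p : K)⁻¹, hpA⟩) * ((p : ℕ) : IsLocalRing.ResidueField A) = 1 := by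
          rw [← map_natCast (IsLocalRing.residue A), ← map_mul, ← map_one (IsLocalRing.residue A)]
          congr 1
          apply Subtype.ext
          push_cast
          exact inv_mul_cancel₀ hpK
        rw [h4, mul_zero] at h6
        exact zero_ne_one h6
      have h3 := orderOf_eq_prime h1 h2
      rw [← h3]
      exact IsPrimitiveRoot.orderOf _
    · intro g
      rw [resAct_smul A hA]
      congr 1
      exact Subtype.ext (hζG g)
  · intro y
    obtain ⟨x, rfl⟩ := IsLocalRing.residue_surjective y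
    obtain ⟨z, hz⟩ := Fr.closed (x : K)
    have hzA : z ∈ A := mem_of_pow_mem hp.ne_zero (by rw [hz]; exact x.2)
    refine ⟨IsLocalRing.residue A ⟨z, hzA⟩, ?_⟩
    rw [← map_pow]
    congr 1
    exact Subtype.ext hz

end Pool.Agent.Helper25.EC
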