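import Pool.Agent.Helper25.EC.Res
import Pool.Agent.Helper25.ETCPro

/-!
# EC Part IV: closed subgroups of profinite pro-p groups, homomorphisms to Z/p (helper25)
-/

set_option autoImplicit false

open scoped Pointwise

namespace Pool.Agent.Helper25.EC

variable {p : ℕ} {G : Type} [Group G] [TopologicalSpace G] [IsTopologicalGroup G]
  [CompactSpace G] [TotallyDisconnectedSpace G]

theorem exists_open_normal {U : Set G} (hU : IsOpen U) (h1 : (1 : G) ∈ U) :
    ∃ N : Subgroup G, N.Normal ∧ IsOpen (N : Set G) ∧ (N : Set G) ⊆ U := by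
  obtain ⟨N, hN⟩ := ProfiniteGrp.exist_openNormalSubgroup_sub_open_nhds_of_one hU h1
  exact ⟨N.toSubgroup, N.isNormal', N.isOpen', hN⟩

theorem index_sub (hp : p.Prime)
    (hidx : ∀ N : Subgroup G, N.Normal → IsOpen (N : Set G) → ∃ k : ℕ, N.index = p ^ k)
    (H : Subgroup G) (N : Subgroup H) (hN : IsOpen (N : Set H)) : ∃ k : ℕ, N.index = p ^ k := by
  obtain ⟨U, hU, hUN⟩ := isOpen_induced_iff.mp hN
  have h1 : (1 : G) ∈ U := by
    have : (1 : H) ∈ Subtype.val ⁻¹' U := by rw [hUN]; exact N.one_mem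
    exact this
  obtain ⟨M, hMn, hMo, hMU⟩ := exists_open_normal hU h1
  obtain ⟨k, hk⟩ := hidx M hMn hMo
  have h2 : M.subgroupOf H ≤ N := by
    intro x hx
    have : x ∈ Subtype.val ⁻¹' U := hMU hx
    rw [hUN] at this
    exact this
  have h3 : N.index ∣ p ^ k := by
    rw [← hk]
    exact (Subgroup.index_dvd_of_le h2).trans (Subgroup.relIndex_dvd_index_of_normal M H)
  obtain ⟨j, -, hj⟩ := (Nat.dvd_prime_pow hp).mp h3
  exact ⟨j, hj⟩

theorem exists_hom_of_ne_top (hp : p.Prime)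
    (hidx : ∀ N : Subgroup G, N.Normal → IsOpen (N : Set G) → ∃ k : ℕ, N.index = p ^ k)
    (H : Subgroup G) (hH : IsClosed (H : Set G)) (hne : H ≠ ⊤) :
    ∃ χ : G →* Multiplicative (ZMod p), IsOpen (χ.ker : Set G) ∧ χ ≠ 1 ∧ ∀ x ∈ H, χ x = 1 := by
  have : Fact p.Prime := ⟨hp⟩
  obtain ⟨g, hg⟩ : ∃ g : G, g ∉ H := by
    by_contra hcon
    push Not at hcon
    exact hne (eq_top_iff.mpr fun x _ => hcon x)
  have hU : IsOpen {u : G | g * u ∉ H} :=
    (hH.isOpen_compl).preimage (continuous_const.mul continuous_id)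
  obtain ⟨N, hNn, hNo, hNU⟩ := exists_open_normal hU (by simpa using hg)
  obtain ⟨k, hk⟩ := hidx N hNn hNo
  have hfin : Finite (G ⧸ N) := by
    have : N.FiniteIndex := ⟨by rw [hk]; exact pow_ne_zero _ hp.ne_zero⟩
    infer_instance
  have hPG : IsPGroup p (G ⧸ N) := IsPGroup.iff_card.mpr ⟨k, hk⟩
  have hne' : H.map (QuotientGroup.mk' N) ≠ ⊤ := by
    intro htop
    have h1 : (QuotientGroup.mk' N) g ∈ H.map (QuotientGroup.mk' N) := by
      rw [htop]; trivial
    obtain ⟨h, hh, hhg⟩ := h1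
    have h2 : g⁻¹ * h ∈ N := by
      have h3 : (QuotientGroup.mk' N) (g⁻¹ * h) = 1 := by
        rw [map_mul, map_inv, hhg, inv_mul_cancel]
      rwa [← MonoidHom.mem_ker, QuotientGroup.ker_mk'] at h3
    have h4 := hNU h2
    apply h4
    rw [mul_inv_cancel_left]; exact hh
  obtain ⟨M, hM, hMn, hMi⟩ := Pool.Agent.Helper25.ETC.exists_index_p hp hPG _ hne'
  have hcard : Nat.card ((G ⧸ N) ⧸ M) = p := hMi
  have hcard' : Nat.card (Multiplicative (ZMod p)) = p := Nat.card_zmod p
  let e : ((G ⧸ N) ⧸ M) ≃* Multiplicative (ZMod p) := mulEquivOfPrimeCardEq hcard hcard'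
  let χ : G →* Multiplicative (ZMod p) :=
    (e.toMonoidHom.comp (QuotientGroup.mk' M)).comp (QuotientGroup.mk' N)
  refine ⟨χ, ?_, ?_, ?_⟩
  · refine Subgroup.isOpen_mono ?_ hNo
    intro x hx
    rw [MonoidHom.mem_ker]
    have h1 : (QuotientGroup.mk' N) x = 1 := by
      rwa [← MonoidHom.mem_ker, QuotientGroup.ker_mk']
    change e ((QuotientGroup.mk' M) ((QuotientGroup.mk' N) x)) = 1
    rw [h1, map_one, map_one]
  · intro h1
    have hsurj : Function.Surjective χ :=
      e.surjective.comp ((QuotientGroup.mk'_surjective M).comp (QuotientGroup.mk'_surjective N))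
    obtain ⟨x, hx⟩ := hsurj (Multiplicative.ofAdd 1)
    rw [h1] at hx
    have : (0 : ZMod p) = 1 := congrArg Multiplicative.toAdd hx
    exact zero_ne_one this
  · intro x hx
    change e ((QuotientGroup.mk' M) ((QuotientGroup.mk' N) x)) = 1
    have h1 : (QuotientGroup.mk' M) ((QuotientGroup.mk' N) x) = 1 := by
      rw [← MonoidHom.mem_ker, QuotientGroup.ker_mk']
      exact hM ⟨x, hx, rfl⟩
    rw [h1, map_one]

/-- the homomorphisms with open kernel. -/
abbrev CHom (p : ℕ) (G : Type) [Group G] [TopologicalSpace G] : Type :=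
  {χ : G →* Multiplicative (ZMod p) // IsOpen (χ.ker : Set G)}

omit [CompactSpace G] [TotallyDisconnectedSpace G] [IsTopologicalGroup G] in
/-- restriction. -/
theorem restrict_open {P : Type} [Group P] (H : Subgroup G) {χ : G →* P}
    (h : IsOpen (χ.ker : Set G)) : IsOpen ((χ.comp H.subtype).ker : Set H) :=
  h.preimage continuous_subtype_val

/-- restriction. -/
def CHom.res (H : Subgroup G) (χ : CHom p G) : CHom p H :=
  ⟨χ.1.comp H.subtype, restrict_open H χ.2⟩

omit [CompactSpace G] [TotallyDisconnectedSpace G] in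
theorem FreeProd.res_surjective (hp : p.Prime) {ι : Type} {H : ι → Subgroup G}
    (hF : FreeProd p H) (i : ι) : Function.Surjective (CHom.res (p := p) (H i)) := by
  classical
  have : Fact p.Prime := ⟨hp⟩
  intro χ
  have hcard : ∃ k : ℕ, Nat.card (Multiplicative (ZMod p)) = p ^ k :=
    ⟨1, by rw [pow_one]; exact Nat.card_zmod p⟩
  let φ : (j : ι) → (H j →* Multiplicative (ZMod p)) := fun j =>
    if h : j = i then h ▸ χ.1 else 1
  have hφi : φ i = χ.1 := by simp [φ]
  obtain ⟨ψ, ⟨hψo, hψ⟩, -⟩ := hF (Multiplicative (ZMod p)) hcard φ (by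
    intro j
    by_cases h : j = i
    · subst h
      rw [hφi]; exact χ.2
    · have h1 : φ j = 1 := by simp [φ, h]
      rw [h1, MonoidHom.ker_one]
      exact isOpen_univ)
  refine ⟨⟨ψ, hψo⟩, ?_⟩
  apply Subtype.ext
  ext x
  have := hψ i x
  rw [hφi] at this
  exact this

theorem card_lt (hp : p.Prime)
    (hidx : ∀ N : Subgroup G, N.Normal → IsOpen (N : Set G) → ∃ k : ℕ, N.index = p ^ k)
    (hfin : Finite (CHom p G)) {ι : Type} {H : ι → Subgroup G}
    (hF : FreeProd p H) (i : ι) (hH : IsClosed (H i : Set G)) (hne : H i ≠ ⊤) :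
    Finite (CHom p (H i)) ∧ Nat.card (CHom p (H i)) < Nat.card (CHom p G) := by
  have hs := FreeProd.res_surjective hp hF i
  have h1 : Finite (CHom p (H i)) := Finite.of_surjective _ hs
  refine ⟨h1, ?_⟩
  refine lt_of_le_of_ne (Nat.card_le_card_of_surjective _ hs) ?_
  intro heq
  have hbij : Function.Bijective (CHom.res (p := p) (H i)) :=
    (Nat.bijective_iff_surjective_and_card _).mpr ⟨hs, heq.symm⟩
  obtain ⟨χ, hχo, hχ1, hχ⟩ := exists_hom_of_ne_top hp hidx (H i) hH hne
  apply hχ1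
  have h2 : (⟨χ, hχo⟩ : CHom p G) = ⟨1, by rw [MonoidHom.ker_one]; exact isOpen_univ⟩ := by
    apply hbij.1
    apply Subtype.ext
    ext x
    exact congrArg Multiplicative.toAdd (hχ x x.2)
  exact congrArg Subtype.val h2

end Pool.Agent.Helper25.EC
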