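import Pool.Agent.Helper25.EC.Basic

/-!
# EC Part IV: stable valuation rings, composites, action on the residue field (helper25)
-/

set_option autoImplicit false

open scoped Pointwise

namespace Pool.Agent.Helper25.EC

section basic

variable {K G : Type} [Field K] [Group G] [MulSemiringAction G K]

theorem mem_stab_iff {A : ValuationSubring K} {g : G} :
    g • A = A ↔ ∀ x : K, (g • x ∈ A ↔ x ∈ A) := by
  constructor
  · intro h x
    conv_lhs => rw [← h]
    exact ValuationSubring.smul_mem_pointwise_smul_iff
  · intro h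
    ext x
    rw [ValuationSubring.mem_pointwise_smul_iff_inv_smul_mem, ← h, smul_inv_smul]

theorem smul_mem_of_stab {A : ValuationSubring K} {g : G} (h : g • A = A) {x : K} (hx : x ∈ A) :
    g • x ∈ A := (mem_stab_iff.mp h x).mpr hx

theorem smul_nonunits_of_stab {A : ValuationSubring K} {g : G} (h : g • A = A) {x : K}
    (hx : x ∈ A.nonunits) : g • x ∈ A.nonunits := by
  rw [ValuationSubring.mem_nonunits_iff_or] at hx ⊢
  rcases hx with rfl | hx
  · left; exact smul_zero g
  · right
    rw [← smul_inv'' g x, (mem_stab_iff.mp h x⁻¹)]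
    exact hx

/-- comparable conjugate valuation rings are equal. -/
theorem smul_eq_of_le {A : ValuationSubring K} {g : G}
    (hfin : ∀ x : K, ∃ n : ℕ, 0 < n ∧ g ^ n • x = x) (h : A ≤ g • A) : g • A = A := by
  refine le_antisymm ?_ h
  have hchain : ∀ n : ℕ, 0 < n → g • A ≤ g ^ n • A := by
    intro n hn
    induction n with
    | zero => omega
    | succ n ih =>
      rcases Nat.eq_zero_or_pos n with rfl | hn'
      · simp
      · refine (ih hn').trans ?_
        have h1 : g ^ n • A ≤ g ^ n • (g • A) := ValuationSubring.pointwise_smul_le_pointwise_smul_iff.mpr h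
        rwa [smul_smul, ← pow_succ] at h1
  intro x hx
  obtain ⟨n, hn, hnx⟩ := hfin x
  have h2 := hchain n hn hx
  rw [ValuationSubring.mem_pointwise_smul_iff_inv_smul_mem] at h2
  have h3 : (g ^ n)⁻¹ • x = x := by
    rw [inv_smul_eq_iff]; exact hnx.symm
  rwa [h3] at h2

theorem smul_eq_of_comparable {A : ValuationSubring K} {g : G}
    (hfin : ∀ x : K, ∃ n : ℕ, 0 < n ∧ g ^ n • x = x) (h : A ≤ g • A ∨ g • A ≤ A) : g • A = A := by
  rcases h with h | h
  · exact smul_eq_of_le hfin h
  · have h1 : A ≤ g⁻¹ • A := ValuationSubring.pointwise_smul_subset_iff.mp h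
    have h2 : g⁻¹ • A = A := by
      apply smul_eq_of_le _ h1
      intro x
      obtain ⟨n, hn, hnx⟩ := hfin x
      refine ⟨n, hn, ?_⟩
      rw [inv_pow, inv_smul_eq_iff]
      exact hnx.symm
    rw [inv_smul_eq_iff] at h2
    exact h2.symm

/-- the stabilizer of a smaller valuation ring stabilizes the bigger one. -/
theorem stab_le_of_le {A B : ValuationSubring K} (hAB : A ≤ B) {g : G}
    (hfin : ∀ x : K, ∃ n : ℕ, 0 < n ∧ g ^ n • x = x) (h : g • A = A) : g • B = B := by
  apply smul_eq_of_comparable hfin
  have h1 : A ≤ g • B := by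
    rw [← h]
    exact ValuationSubring.pointwise_smul_le_pointwise_smul_iff.mpr hAB
  exact (ValuationSubring.le_total_ideal A).total ⟨B, hAB⟩ ⟨g • B, h1⟩

end basic

section comp

variable {K : Type} [Field K] (A : ValuationSubring K)

/-- the composite of `A` with a valuation ring of its residue field. -/
def compo (D : ValuationSubring (IsLocalRing.ResidueField A)) : ValuationSubring K where
  carrier := {x | ∃ h : x ∈ A, IsLocalRing.residue A ⟨x, h⟩ ∈ D}
  mul_mem' := by
    rintro x y ⟨hx, hx'⟩ ⟨hy, hy'⟩
    exact ⟨A.mul_mem x y hx hy, by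
      have := D.mul_mem _ _ hx' hy'
      rwa [← map_mul] at this⟩
  one_mem' := ⟨A.one_mem, by
    have := D.one_mem
    rwa [← map_one (IsLocalRing.residue A)] at this⟩
  add_mem' := by
    rintro x y ⟨hx, hx'⟩ ⟨hy, hy'⟩
    exact ⟨A.add_mem x y hx hy, by
      have := D.add_mem _ _ hx' hy'
      rwa [← map_add] at this⟩
  zero_mem' := ⟨A.zero_mem, by
    have := D.zero_mem
    rwa [← map_zero (IsLocalRing.residue A)] at this⟩
  neg_mem' := by
    rintro x ⟨hx, hx'⟩
    exact ⟨A.neg_mem x hx, by
      have := D.neg_mem _ hx'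
      rwa [← map_neg] at this⟩
  mem_or_inv_mem' := by
    intro x
    by_cases hx : x ∈ A
    · by_cases hx' : x⁻¹ ∈ A
      · rcases eq_or_ne x 0 with rfl | h0
        · left
          exact ⟨hx, by
            have := D.zero_mem
            rwa [← map_zero (IsLocalRing.residue A)] at this⟩
        · rcases D.mem_or_inv_mem (IsLocalRing.residue A ⟨x, hx⟩) with h | h
          · exact Or.inl ⟨hx, h⟩
          · right
            refine ⟨hx', ?_⟩
            have h1 : IsLocalRing.residue A ⟨x⁻¹, hx'⟩ = (IsLocalRing.residue A ⟨x, hx⟩)⁻¹ := by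
              apply eq_inv_of_mul_eq_one_left
              rw [← map_mul, ← map_one (IsLocalRing.residue A)]
              congr 1
              exact Subtype.ext (inv_mul_cancel₀ h0)
            rw [h1]; exact h
      · left
        refine ⟨hx, ?_⟩
        have h1 : IsLocalRing.residue A ⟨x, hx⟩ = 0 := by
          rw [IsLocalRing.residue_eq_zero_iff, ← ValuationSubring.coe_mem_nonunits_iff,
            ValuationSubring.mem_nonunits_iff_or]
          exact Or.inr hx'
        rw [h1]; exact D.zero_mem
    · right
      have hx' : x⁻¹ ∈ A := (A.mem_or_inv_mem x).resolve_left hx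
      refine ⟨hx', ?_⟩
      have h1 : IsLocalRing.residue A ⟨x⁻¹, hx'⟩ = 0 := by
        rw [IsLocalRing.residue_eq_zero_iff, ← ValuationSubring.coe_mem_nonunits_iff]
        change x⁻¹ ∈ A.nonunits
        rw [ValuationSubring.inv_mem_nonunits_iff]
        exact Or.inr hx
      rw [h1]; exact D.zero_mem

theorem mem_compo {D : ValuationSubring (IsLocalRing.ResidueField A)} {x : K} :
    x ∈ compo A D ↔ ∃ h : x ∈ A, IsLocalRing.residue A ⟨x, h⟩ ∈ D := Iff.rfl

theorem compo_le (D : ValuationSubring (IsLocalRing.ResidueField A)) : compo A D ≤ A :=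
  fun _ hx => hx.1

theorem mem_nonunits_iff_residue {x : K} (hx : x ∈ A) :
    x ∈ A.nonunits ↔ IsLocalRing.residue A ⟨x, hx⟩ = 0 := by
  rw [IsLocalRing.residue_eq_zero_iff, ← ValuationSubring.coe_mem_nonunits_iff]

theorem mem_nonunits_compo {D : ValuationSubring (IsLocalRing.ResidueField A)} {x : K}
    (hx : x ∈ A) : x ∈ (compo A D).nonunits ↔ IsLocalRing.residue A ⟨x, hx⟩ ∈ D.nonunits := by
  rw [ValuationSubring.mem_nonunits_iff_or, ValuationSubring.mem_nonunits_iff_or]
  by_cases hx' : x⁻¹ ∈ A
  · rcases eq_or_ne x 0 with rfl | h0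
    · simp only [true_or, true_iff]
      left
      rw [← map_zero (IsLocalRing.residue A)]; rfl
    · have h1 : IsLocalRing.residue A ⟨x⁻¹, hx'⟩ = (IsLocalRing.residue A ⟨x, hx⟩)⁻¹ := by
        apply eq_inv_of_mul_eq_one_left
        rw [← map_mul, ← map_one (IsLocalRing.residue A)]
        congr 1
        exact Subtype.ext (inv_mul_cancel₀ h0)
      have h2 : IsLocalRing.residue A ⟨x, hx⟩ ≠ 0 := by
        rw [Ne, ← mem_nonunits_iff_residue, ValuationSubring.mem_nonunits_iff_or]
        push Not
        exact ⟨h0, hx'⟩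
      simp only [h0, h2, false_or]
      rw [mem_compo, ← h1]
      constructor
      · intro h h3
        exact h ⟨hx', h3⟩
      · rintro h ⟨h4, h3⟩
        exact h h3
  · have h1 : IsLocalRing.residue A ⟨x, hx⟩ = 0 := by
      rw [← mem_nonunits_iff_residue, ValuationSubring.mem_nonunits_iff_or]
      exact Or.inr hx'
    simp only [h1, true_or, iff_true]
    right
    exact fun h => hx' h.1

end comp

section act

variable {K G : Type} [Field K] [Group G] [MulSemiringAction G K] (A : ValuationSubring K)
  (hA : ∀ g : G, g • A = A)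

/-- the action on a stable valuation ring. -/
@[reducible] def stabAct : MulSemiringAction G A where
  smul g x := ⟨g • (x : K), smul_mem_of_stab (hA g) x.2⟩
  one_smul x := Subtype.ext (one_smul G (x : K))
  mul_smul g h x := Subtype.ext (mul_smul g h (x : K))
  smul_zero g := Subtype.ext (smul_zero g)
  smul_add g x y := Subtype.ext (smul_add g (x : K) (y : K))
  smul_one g := Subtype.ext (smul_one g)
  smul_mul g x y := Subtype.ext (smul_mul' g (x : K) (y : K))

/-- the action on the residue field of a stable valuation ring. -/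
@[reducible] noncomputable def resAct : MulSemiringAction G (IsLocalRing.ResidueField A) :=
  letI := stabAct A hA
  inferInstance

theorem resAct_smul (g : G) (x : A) :
    letI := resAct A hA
    g • IsLocalRing.residue A x =
      IsLocalRing.residue A ⟨g • (x : K), smul_mem_of_stab (hA g) x.2⟩ := by
  let := stabAct A hA
  exact (IsLocalRing.ResidueField.residue_smul G g x).symm

theorem compo_stab (D : ValuationSubring (IsLocalRing.ResidueField A)) (g : G) :
    letI := resAct A hA
    g • compo A D = compo A D ↔ g • D = D := by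
  letI := resAct A hA
  rw [mem_stab_iff, mem_stab_iff]
  constructor
  · intro h y
    obtain ⟨x, rfl⟩ := IsLocalRing.residue_surjective y
    rw [resAct_smul A hA]
    have h1 := h x
    rw [mem_compo, mem_compo] at h1
    constructor
    · intro h2
      obtain ⟨h3, h4⟩ := h1.mp ⟨_, h2⟩
      exact h4
    · intro h2
      obtain ⟨h3, h4⟩ := h1.mpr ⟨x.2, h2⟩
      exact h4
  · intro h x
    rw [mem_compo, mem_compo]
    constructor
    · rintro ⟨h1, h2⟩
      have h3 : x ∈ A := (mem_stab_iff.mp (hA g) x).mp h1
      refine ⟨h3, ?_⟩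
      rw [← h, resAct_smul A hA]
      exact h2
    · rintro ⟨h1, h2⟩
      refine ⟨smul_mem_of_stab (hA g) h1, ?_⟩
      rw [← h, resAct_smul A hA] at h2
      exact h2

theorem compo_inert (D : ValuationSubring (IsLocalRing.ResidueField A)) (g : G) :
    letI := resAct A hA
    Inert (compo A D) g ↔ Inert D g := by
  letI := resAct A hA
  unfold Inert
  rw [compo_stab A hA]
  constructor
  · rintro ⟨h, h'⟩
    refine ⟨h, fun y hy => ?_⟩
    obtain ⟨x, rfl⟩ := IsLocalRing.residue_surjective y
    have h1 := h' x ⟨x.2, hy⟩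
    have h2 : g • (x : K) - x ∈ A := A.toSubring.sub_mem (smul_mem_of_stab (hA g) x.2) x.2
    rw [mem_nonunits_compo A h2] at h1
    rw [resAct_smul A hA, ← map_sub]
    exact h1
  · rintro ⟨h, h'⟩
    refine ⟨h, ?_⟩
    rintro x ⟨hx, hy⟩
    have h1 := h' _ hy
    have h2 : g • (x : K) - x ∈ A := A.toSubring.sub_mem (smul_mem_of_stab (hA g) hx) hx
    rw [mem_nonunits_compo A h2]
    rw [resAct_smul A hA, ← map_sub] at h1
    exact h1

end act

end Pool.Agent.Helper25.EC
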